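import Pool.Agent.MP_c810be_co.Mix

namespace Pool.Agent.Results.MP_c810be_co.Proof

open Pool.Agent.MP_c810be_co

theorem result :
    ∃ C : ℝ, 0 < C ∧ ∀ (k : ℕ) (δ : ℝ), 0 < δ → δ ≤ 1 / 2 →
      ∃ N : ℕ, IsLeast {n : ℕ | EmbProp δ k n} N ∧
        (N : ℝ) ≤ Real.exp (C * k) * Real.log (1 / δ) := by
  refine ⟨Real.log 864, Real.log_pos (by norm_num), fun k δ h0 h1 => ?_⟩
  have hl2 : (2 / 3 : ℝ) < Real.log 2 := by linarith [Real.log_two_gt_d9]
  set L := Real.log (1 / δ) with hL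
  have hL2 : Real.log 2 ≤ L := by
    refine Real.log_le_log (by norm_num) ?_
    rw [le_div_iff₀ h0]
    linarith
  have hk : (1 : ℝ) ≤ 2 ^ k := one_le_pow₀ (by norm_num)
  set t : ℝ := 2 ^ k * L / Real.log 2 with ht
  have ht1 : 1 ≤ t := by
    rw [ht, le_div_iff₀ (by linarith)]
    nlinarith
  have htl : t * Real.log 2 = 2 ^ k * L := by
    rw [ht]
    field_simp
  have hc1 : t ≤ ⌈t⌉₊ := Nat.le_ceil t
  have hc2 : (⌈t⌉₊ : ℝ) < t + 1 := Nat.ceil_lt_add_one (by linarith)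
  have hc3 : 1 ≤ ⌈t⌉₊ := by exact_mod_cast ht1.trans hc1
  have hE : EmbProp δ k (k * (36 * (2 * ⌈t⌉₊))) := by
    refine embProp_of (by omega) (even_two_mul _) h0 (by linarith) ?_
    rw [← Real.log_le_log_iff (by positivity) (by positivity), Real.log_pow, Real.log_pow,
      Real.log_div h0.ne' (by norm_num), one_div, Real.log_inv]
    have : Real.log δ = -L := by rw [hL, one_div, Real.log_inv, neg_neg]
    rw [this]
    push_cast
    nlinarith
  classical
  have hex : ∃ n, EmbProp δ k n := ⟨_, hE⟩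
  refine ⟨Nat.find hex, ⟨Nat.find_spec hex, fun n hn => Nat.find_min' hex hn⟩, ?_⟩
  have hle : (Nat.find hex : ℝ) ≤ (k * (36 * (2 * ⌈t⌉₊)) : ℕ) := by
    exact_mod_cast Nat.find_min' hex hE
  refine hle.trans ?_
  rw [mul_comm (Real.log 864), Real.exp_nat_mul, Real.exp_log (by norm_num)]
  have hk0 : (0 : ℝ) ≤ k := Nat.cast_nonneg k
  have h6 : (2 * ⌈t⌉₊ : ℝ) ≤ 6 * (2 ^ k * L) := by nlinarith
  have h7 : (216 * k : ℝ) ≤ 432 ^ k := by
    have : 216 * k ≤ 432 ^ k := by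
      rcases Nat.eq_zero_or_pos k with rfl | hk
      · simp
      · calc 216 * k ≤ 216 ^ k * 2 ^ k :=
            Nat.mul_le_mul (Nat.le_self_pow (by omega) _) Nat.lt_two_pow_self.le
          _ = _ := by rw [← mul_pow]; norm_num
    exact_mod_cast this
  have h8 : (864 : ℝ) ^ k = 432 ^ k * 2 ^ k := by rw [← mul_pow]; norm_num
  have h9 : 0 ≤ 2 ^ k * L := by nlinarith
  push_cast
  rw [h8]
  nlinarith [mul_le_mul_of_nonneg_left h6 hk0, mul_le_mul_of_nonneg_right h7 h9]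

end Pool.Agent.Results.MP_c810be_co.Proof
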